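import Mathlib
import Pool.Agent.H.MP_2d9e0f_co.Main

set_option autoImplicit false

namespace Pool.Agent.Results.MP_2d9e0f_co.Six

open Function

/-- `φ` is a `(t, s, v)`-all-or-nothing transform over the alphabet `Fin v`. -/
def IsAONT (t s v : ℕ) (φ : (Fin s → Fin v) → (Fin s → Fin v)) : Prop :=
  Bijective φ ∧ ∀ I J : Finset (Fin s), I.card = t → J.card = t →
    Bijective (fun x : Fin s → Fin v =>
      ((fun i : {i // i ∈ I} => x i.1), (fun j : {j // j ∉ J} => φ x j.1)))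

/-- a `(t, s, v)`-all-or-nothing transform exists -/
def HasAONT (t s v : ℕ) : Prop := ∃ φ, IsAONT t s v φ

open Pool.Agent.H.MP_2d9e0f_co

theorem has3 : HasAONT 1 3 6 := by
  refine ⟨phi, Finite.injective_iff_bijective.mp psi_phi.injective, fun I J hI hJ => ?_⟩
  obtain ⟨i, rfl⟩ := Finset.card_eq_one.mp hI
  obtain ⟨j, rfl⟩ := Finset.card_eq_one.mp hJ
  rw [Fintype.bijective_iff_injective_and_card]
  refine ⟨fun x y e => phi_inj i j x y ?_ (fun k hk => ?_), ?_⟩
  · exact congrFun (congrArg Prod.fst e) ⟨i, Finset.mem_singleton_self i⟩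
  · exact congrFun (congrArg Prod.snd e) ⟨k, by simpa using hk⟩
  · simp [Fintype.card_subtype_compl]

theorem not2 : ¬ HasAONT 1 2 6 := by
  rintro ⟨φ, h1, h2⟩
  have key : ∀ (i j : Fin 2) (x y : Fin 2 → Fin 6), x i = y i → (∀ k, k ≠ j → φ x k = φ y k) →
      x = y := fun i j x y e1 e2 => by
    apply (h2 {i} {j} (by simp) (by simp)).1
    refine Prod.ext (funext fun k => ?_) (funext fun k => e2 k.1 (by simpa using k.2))
    obtain ⟨k, hk⟩ := k
    obtain rfl := Finset.mem_singleton.mp hk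
    exact e1
  have o0 : ∀ k : Fin 2, k ≠ 1 → k = 0 := by decide
  have o1 : ∀ k : Fin 2, k ≠ 0 → k = 1 := by decide
  refine no_ols (fun r c => φ ![r, c] 0) (fun r c => φ ![r, c] 1) ⟨fun r c c' e => ?_,
    fun c r r' e => ?_, fun r c c' e => ?_, fun c r r' e => ?_, fun p q e => ?_⟩
  · exact congrFun (key 0 1 ![r, c] ![r, c'] rfl (fun k hk => by rw [o0 k hk]; exact e)) 1
  · exact congrFun (key 1 1 ![r, c] ![r', c] rfl (fun k hk => by rw [o0 k hk]; exact e)) 0
  · exact congrFun (key 0 0 ![r, c] ![r, c'] rfl (fun k hk => by rw [o1 k hk]; exact e)) 1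
  · exact congrFun (key 1 0 ![r, c] ![r', c] rfl (fun k hk => by rw [o1 k hk]; exact e)) 0
  · have : ![p.1, p.2] = ![q.1, q.2] := h1.1 (funext fun k => by
      fin_cases k
      · exact congrArg Prod.fst e
      · exact congrArg Prod.snd e)
    exact Prod.ext (congrFun this 0) (congrFun this 1)

theorem result : (HasAONT 1 3 6 ∧ ¬ HasAONT 1 2 6) ∧
    ¬ ∀ v t s : ℕ, 1 ≤ v → 1 ≤ t → t ≤ s - 1 → HasAONT t s v → HasAONT t (s - 1) v :=
  ⟨⟨has3, not2⟩, fun h => not2 (h 6 1 3 (by norm_num) (by norm_num) (by norm_num) has3)⟩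

end Pool.Agent.Results.MP_2d9e0f_co.Six
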